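import Mathlib

set_option autoImplicit false
set_option linter.unusedSectionVars false

/-!
# Counting partial isomorphisms of hypomorphic matrices

`emb M P S` is the set of the maps `S → V` which carry the entries of the matrix `M` to the entries
of `P`. Suppose that for a set `D` all maps in `emb M P D` have at most one extension to every
further element, and that such extensions fit together. Then the numbers of the elements of
`emb M P S`, `D ⊆ S`, have the form of a Möbius sum.
-/

namespace Pool.Agent.H370LR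

open Finset Classical

variable {V F : Type} [Fintype V]

/-- the maps from `S` to `V` which carry `M` to `P` -/
noncomputable def emb (M P : V → V → F) (S : Finset V) : Finset (S → V) :=
  univ.filter (fun σ => ∀ x y : S, P (σ x) (σ y) = M x y)

/-- `w` is related to the image of `D` as `v` is related to `D` -/
def Mat (M P : V → V → F) (D : Finset V) (ρ : D → V) (v w : V) : Prop :=
  ∀ d : D, P w (ρ d) = M v d ∧ P (ρ d) w = M d v

/-- the elements to which `ρ` can be extended -/
noncomputable def tr (M P : V → V → F) (D : Finset V) (ρ : D → V) : Finset V :=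
  univ.filter (fun v => ∃ w, Mat M P D ρ v w)

/-- `D` determines everything -/
structure Good (M P : V → V → F) (D : Finset V) : Prop where
  det : ∀ ρ ∈ emb M P D, ∀ v v' w w', Mat M P D ρ v w → Mat M P D ρ v' w' → P w w' = M v v'
  uniq : ∀ ρ ∈ emb M P D, ∀ v w w', Mat M P D ρ v w → Mat M P D ρ v w' → w = w'
  inj : ∀ v v', (∀ d ∈ D, M v d = M v' d ∧ M d v = M d v') → v = v'

variable {M N P : V → V → F} {D : Finset V}

theorem mem_emb {S : Finset V} {σ : S → V} : σ ∈ emb M P S ↔ ∀ x y : S, P (σ x) (σ y) = M x y := by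
  unfold emb
  rw [mem_filter]
  exact and_iff_right (mem_univ _)

theorem mem_tr {ρ : D → V} {v : V} : v ∈ tr M P D ρ ↔ ∃ w, Mat M P D ρ v w := by
  unfold tr
  rw [mem_filter]
  exact and_iff_right (mem_univ _)

theorem emb_injective (hg : Good M P D) {S : Finset V} (hS : D ⊆ S) {σ : S → V}
    (hσ : σ ∈ emb M P S) : Function.Injective σ := by
  intro x y hxy
  rw [mem_emb] at hσ
  apply Subtype.ext
  apply hg.inj
  intro d hd
  have h1 := hσ x ⟨d, hS hd⟩
  have h2 := hσ y ⟨d, hS hd⟩
  have h3 := hσ ⟨d, hS hd⟩ x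
  have h4 := hσ ⟨d, hS hd⟩ y
  rw [hxy] at h1 h3
  exact ⟨h1.symm.trans h2, h3.symm.trans h4⟩

theorem card_emb (hg : Good M P D) {S : Finset V} (hS : D ⊆ S) :
    (emb M P S).card = ((emb M P D).filter (fun ρ => S ⊆ tr M P D ρ)).card := by
  apply card_bij (fun σ _ => fun d : D => σ ⟨d, hS d.2⟩)
  · intro σ hσ
    rw [mem_emb] at hσ
    rw [mem_filter, mem_emb]
    refine ⟨fun x y => hσ _ _, fun v hv => ?_⟩
    rw [mem_tr]
    exact ⟨σ ⟨v, hv⟩, fun d => ⟨hσ _ _, hσ _ _⟩⟩
  · intro σ hσ σ' hσ' he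
    have hρ : (fun d : D => σ ⟨d, hS d.2⟩) ∈ emb M P D := by
      rw [mem_emb] at hσ ⊢
      exact fun x y => hσ _ _
    rw [mem_emb] at hσ hσ'
    funext s
    apply hg.uniq _ hρ s
    · intro d
      exact ⟨hσ _ _, hσ _ _⟩
    · intro d
      have h : σ ⟨d, hS d.2⟩ = σ' ⟨d, hS d.2⟩ := congrFun he d
      show P (σ' s) (σ ⟨d, hS d.2⟩) = _ ∧ P (σ ⟨d, hS d.2⟩) (σ' s) = _
      rw [h]
      exact ⟨hσ' _ _, hσ' _ _⟩
  · intro ρ hρ
    rw [mem_filter] at hρ
    obtain ⟨hρ, hST⟩ := hρ
    have h1 : ∀ s : S, ∃ w, Mat M P D ρ s w := fun s => mem_tr.mp (hST s.2)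
    choose σ hσ using h1
    have hD : ∀ d : D, σ ⟨d, hS d.2⟩ = ρ d := by
      intro d
      apply hg.uniq ρ hρ d _ _ (hσ _)
      intro d'
      rw [mem_emb] at hρ
      exact ⟨hρ _ _, hρ _ _⟩
    refine ⟨σ, ?_, ?_⟩
    · rw [mem_emb]
      exact fun x y => hg.det ρ hρ _ _ _ _ (hσ x) (hσ y)
    · funext d
      exact hD d

theorem alt_sum (hg : Good M P D) {S : Finset V} (hS : D ⊆ S) :
    ∑ W ∈ Sᶜ.powerset, (-1 : ℤ) ^ W.card * ((emb M P (S ∪ W)).card : ℤ) =
      (((emb M P D).filter (fun ρ => tr M P D ρ = S)).card : ℤ) := by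
  have h1 : ∀ W ∈ Sᶜ.powerset, (-1 : ℤ) ^ W.card * ((emb M P (S ∪ W)).card : ℤ) =
      ∑ ρ ∈ emb M P D, if S ⊆ tr M P D ρ ∧ W ⊆ tr M P D ρ then (-1 : ℤ) ^ W.card else 0 := by
    intro W _
    rw [card_emb hg (hS.trans subset_union_left), ← sum_filter]
    have : (emb M P D).filter (fun ρ => S ∪ W ⊆ tr M P D ρ) =
        (emb M P D).filter (fun ρ => S ⊆ tr M P D ρ ∧ W ⊆ tr M P D ρ) := by
      apply filter_congr
      intro ρ _
      rw [union_subset_iff]
    rw [this, sum_const, nsmul_eq_mul]
    ring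
  rw [sum_congr rfl h1, sum_comm, card_filter, Nat.cast_sum]
  apply sum_congr rfl
  intro ρ _
  by_cases hS' : S ⊆ tr M P D ρ
  · have h2 : ∑ W ∈ Sᶜ.powerset, (if S ⊆ tr M P D ρ ∧ W ⊆ tr M P D ρ then (-1 : ℤ) ^ W.card else 0) =
        ∑ W ∈ (Sᶜ ∩ tr M P D ρ).powerset, (-1 : ℤ) ^ W.card := by
      rw [← sum_filter]
      apply sum_congr _ (fun _ _ => rfl)
      ext W
      rw [mem_filter, mem_powerset, mem_powerset, subset_inter_iff]
      tauto
    rw [h2, sum_powerset_neg_one_pow_card]
    have h3 : Sᶜ ∩ tr M P D ρ = ∅ ↔ tr M P D ρ = S := by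
      constructor
      · intro h
        apply Subset.antisymm _ hS'
        intro v hv
        by_contra hvS
        have : v ∈ Sᶜ ∩ tr M P D ρ := mem_inter.mpr ⟨mem_compl.mpr hvS, hv⟩
        rw [h] at this
        exact absurd this (notMem_empty v)
      · intro h
        rw [h]
        ext v
        simp
    simp only [h3]
    split_ifs <;> rfl
  · have h2 : ¬ tr M P D ρ = S := fun h => hS' (by rw [h])
    rw [if_neg h2]
    rw [Nat.cast_zero]
    apply sum_eq_zero
    intro W _
    rw [if_neg (fun h => hS' h.1)]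

/-- the matrices `M` and `N` have isomorphic cards -/
structure Hyp (M N : V → V → F) (π : V → Equiv.Perm V) : Prop where
  fix : ∀ v, π v v = v
  eq : ∀ v x y, x ≠ v → y ≠ v → N (π v x) (π v y) = M x y

variable {π : V → Equiv.Perm V}

theorem kelly_one (hg : Good M P D) {S : Finset V} (hS : D ⊆ S) :
    ∑ v : V, ((emb M P S).filter (fun σ => ∀ s, σ s ≠ v)).card =
      (Fintype.card V - S.card) * (emb M P S).card := by
  have h1 : ∀ v : V, ((emb M P S).filter (fun σ => ∀ s, σ s ≠ v)).card =
      ∑ σ ∈ emb M P S, if (∀ s, σ s ≠ v) then 1 else 0 := by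
    intro v
    rw [card_filter]
  simp_rw [h1]
  rw [sum_comm, mul_comm, ← smul_eq_mul, ← sum_const]
  apply sum_congr rfl
  intro σ hσ
  rw [← card_filter]
  have h2 : univ.filter (fun v : V => ∀ s, σ s ≠ v) = (univ.image σ)ᶜ := by
    ext v
    rw [mem_filter, mem_compl, mem_image]
    constructor
    · rintro ⟨-, h⟩ ⟨s, -, hs⟩
      exact h s hs
    · intro h
      exact ⟨mem_univ _, fun s hs => h ⟨s, mem_univ _, hs⟩⟩
  rw [h2, card_compl, card_image_of_injective _ (emb_injective hg hS hσ), card_univ,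
    Fintype.card_coe]

theorem kelly (hgM : Good M M D) (hgN : Good M N D) (hH : Hyp M N π) {S : Finset V} (hS : D ⊆ S)
    (hlt : S ≠ univ) : (emb M M S).card = (emb M N S).card := by
  have h1 := kelly_one hgM hS
  have h2 := kelly_one hgN hS
  have h3 : ∀ v : V, ((emb M M S).filter (fun σ => ∀ s, σ s ≠ v)).card =
      ((emb M N S).filter (fun σ => ∀ s, σ s ≠ v)).card := by
    intro v
    have hne : ∀ x, x ≠ v → π v x ≠ v := by
      intro x hx h
      apply hx
      apply (π v).injective
      rw [h, hH.fix v]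
    have hne' : ∀ x, x ≠ v → (π v).symm x ≠ v := by
      intro x hx h
      apply hx
      calc x = π v ((π v).symm x) := ((π v).apply_symm_apply x).symm
        _ = π v v := by rw [h]
        _ = v := hH.fix v
    apply card_bij' (fun σ _ => fun s => π v (σ s)) (fun σ _ => fun s => (π v).symm (σ s))
    · intro σ hσ
      rw [mem_filter, mem_emb] at hσ ⊢
      exact ⟨fun x y => by rw [hH.eq v _ _ (hσ.2 x) (hσ.2 y)]; exact hσ.1 x y,
        fun s => hne _ (hσ.2 s)⟩
    · intro σ hσ
      rw [mem_filter, mem_emb] at hσ ⊢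
      refine ⟨fun x y => ?_, fun s => hne' _ (hσ.2 s)⟩
      rw [← hH.eq v _ _ (hne' _ (hσ.2 x)) (hne' _ (hσ.2 y)), Equiv.apply_symm_apply,
        Equiv.apply_symm_apply]
      exact hσ.1 x y
    · intro σ _
      funext s
      simp
    · intro σ _
      funext s
      simp
  rw [sum_congr rfl (fun v _ => h3 v), h2] at h1
  have h4 : 0 < Fintype.card V - S.card := by
    have : S.card < Fintype.card V := by
      rw [← card_univ]
      exact card_lt_card (ssubset_of_ne_of_subset hlt (subset_univ _))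
    omega
  exact (Nat.eq_of_mul_eq_mul_left h4 h1).symm

theorem card_even (s : Finset V) (hs : s.Nonempty) :
    2 * (s.powerset.filter (fun W => Even W.card)).card = 2 ^ s.card := by
  have h1 : ∑ W ∈ s.powerset, (-1 : ℤ) ^ W.card = 0 := by
    rw [sum_powerset_neg_one_pow_card, if_neg hs.ne_empty]
  have h2 : ∑ W ∈ s.powerset, (1 + (-1 : ℤ) ^ W.card) =
      2 * ((s.powerset.filter (fun W => Even W.card)).card : ℤ) := by
    rw [card_filter, Nat.cast_sum, mul_sum]
    apply sum_congr rfl
    intro W _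
    split_ifs with h
    · rw [h.neg_one_pow]; norm_num
    · rw [(Nat.not_even_iff_odd.mp h).neg_one_pow]; norm_num
  rw [sum_add_distrib, h1, add_zero, sum_const, card_powerset, nsmul_eq_mul, mul_one] at h2
  exact_mod_cast h2.symm

theorem Hyp.symm_ne (hH : Hyp M N π) {v x : V} (hx : x ≠ v) : (π v).symm x ≠ v := by
  intro h
  apply hx
  calc x = π v ((π v).symm x) := ((π v).apply_symm_apply x).symm
    _ = π v v := by rw [h]
    _ = v := hH.fix v

theorem Hyp.eq' (hH : Hyp M N π) {v x y : V} (hx : x ≠ v) (hy : y ≠ v) :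
    M ((π v).symm x) ((π v).symm y) = N x y := by
  rw [← hH.eq v _ _ (hH.symm_ne hx) (hH.symm_ne hy), Equiv.apply_symm_apply,
    Equiv.apply_symm_apply]

/-- The conditions `Good` concern at most `|D| + 2` vertices; so they pass on to matrices with
isomorphic cards. -/
theorem good_transfer (hg : Good M M D) (hH : Hyp M N π) (hd : D.card + 2 < Fintype.card V) :
    Good M N D := by
  have hz : ∀ (ρ : D → V) (w w' : V), ∃ z, (∀ d, ρ d ≠ z) ∧ w ≠ z ∧ w' ≠ z := by
    intro ρ w w'
    by_contra hall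
    push Not at hall
    have h2 : (univ : Finset V) ⊆ univ.image ρ ∪ {w, w'} := by
      intro z _
      rw [mem_union, mem_image, mem_insert, mem_singleton]
      by_cases h1 : ∃ d, ρ d = z
      · obtain ⟨d, hd'⟩ := h1
        exact Or.inl ⟨d, mem_univ _, hd'⟩
      · by_cases h3 : w = z
        · exact Or.inr (Or.inl h3.symm)
        · exact Or.inr (Or.inr (hall z (fun d h => h1 ⟨d, h⟩) h3).symm)
    have h3 := card_le_card h2
    have h4 := card_union_le (univ.image ρ) {w, w'}
    have h5 := card_image_le (s := univ) (f := ρ)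
    have h6 : ({w, w'} : Finset V).card ≤ 2 := card_le_two
    rw [card_univ, Fintype.card_coe] at h5
    rw [card_univ] at h3
    omega
  have hemb : ∀ (ρ : D → V) (z : V), ρ ∈ emb M N D → (∀ d, ρ d ≠ z) →
      (fun d => (π z).symm (ρ d)) ∈ emb M M D := by
    intro ρ z hρ h
    rw [mem_emb] at hρ ⊢
    intro x y
    rw [hH.eq' (h x) (h y)]
    exact hρ x y
  have hmat : ∀ (ρ : D → V) (z v w : V), (∀ d, ρ d ≠ z) → w ≠ z → Mat M N D ρ v w →
      Mat M M D (fun d => (π z).symm (ρ d)) v ((π z).symm w) := by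
    intro ρ z v w h hw hm d
    rw [hH.eq' hw (h d), hH.eq' (h d) hw]
    exact hm d
  refine ⟨?_, ?_, hg.inj⟩
  · intro ρ hρ v v' w w' hm hm'
    obtain ⟨z, h1, h2, h3⟩ := hz ρ w w'
    have := hg.det _ (hemb ρ z hρ h1) v v' _ _ (hmat ρ z v w h1 h2 hm) (hmat ρ z v' w' h1 h3 hm')
    rw [hH.eq' h2 h3] at this
    exact this
  · intro ρ hρ v w w' hm hm'
    obtain ⟨z, h1, h2, h3⟩ := hz ρ w w'
    have := hg.uniq _ (hemb ρ z hρ h1) v _ _ (hmat ρ z v w h1 h2 hm) (hmat ρ z v w' h1 h3 hm')
    exact (π z).symm.injective this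

/-- The counting bound. -/
theorem bound (hgM : Good M M D) (hgN : Good M N D) (hH : Hyp M N π)
    (hni : ¬ ∃ σ : Equiv.Perm V, ∀ x y, N (σ x) (σ y) = M x y) (hD : D ≠ univ) :
    2 ^ (Fintype.card V - D.card) ≤ 2 * (emb M M D).card := by
  have hU : emb M N univ = ∅ := by
    by_contra hne
    obtain ⟨σ, hσ⟩ := nonempty_iff_ne_empty.mpr hne
    have hinj := emb_injective hgN (subset_univ D) hσ
    rw [mem_emb] at hσ
    apply hni
    have hinj' : Function.Injective (fun x : V => σ ⟨x, mem_univ x⟩) := by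
      intro x y hxy
      have := hinj hxy
      exact congrArg Subtype.val this
    refine ⟨Equiv.ofBijective _ (Finite.injective_iff_bijective.mp hinj'), fun x y => ?_⟩
    exact hσ ⟨x, mem_univ x⟩ ⟨y, mem_univ y⟩
  have hM : 0 < (emb M M univ).card := by
    apply card_pos.mpr
    exact ⟨fun s => s, mem_emb.mpr (fun x y => rfl)⟩
  -- every even set is a trace
  have key : ∀ W ∈ Dᶜ.powerset.filter (fun W => Even W.card), ∃ ρ ∈ emb M M D,
      (tr M M D ρ)ᶜ = W := by
    intro W hW
    rw [mem_filter, mem_powerset] at hW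
    obtain ⟨hWD, hWe⟩ := hW
    have hS : D ⊆ Wᶜ := by
      intro d hd
      rw [mem_compl]
      intro h
      exact (mem_compl.mp (hWD h)) hd
    have e1 := alt_sum hgM hS
    have e2 := alt_sum hgN hS
    have e3 : ∑ U ∈ Wᶜᶜ.powerset, (-1 : ℤ) ^ U.card * ((emb M M (Wᶜ ∪ U)).card : ℤ) -
        ∑ U ∈ Wᶜᶜ.powerset, (-1 : ℤ) ^ U.card * ((emb M N (Wᶜ ∪ U)).card : ℤ) =
        ((emb M M univ).card : ℤ) := by
      rw [compl_compl, ← sum_sub_distrib]
      rw [sum_eq_single W]
      · have hWW : Wᶜ ∪ W = univ := by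
          ext v
          simp only [mem_union, mem_compl, mem_univ, iff_true]
          tauto
        rw [hWW, hU, hWe.neg_one_pow]
        simp
      · intro U hU1 hU2
        rw [mem_powerset] at hU1
        rw [kelly hgM hgN hH (hS.trans subset_union_left), sub_self]
        intro h
        apply hU2
        apply Subset.antisymm hU1
        intro x hx
        have hx' : x ∈ Wᶜ ∪ U := by rw [h]; exact mem_univ x
        rw [mem_union, mem_compl] at hx'
        tauto
      · intro h
        exact absurd (mem_powerset.mpr (Subset.refl W)) h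
    rw [e1, e2] at e3
    have e4 : 0 < ((emb M M D).filter (fun ρ => tr M M D ρ = Wᶜ)).card := by
      have h0 : (0 : ℤ) ≤ (((emb M N D).filter (fun ρ => tr M N D ρ = Wᶜ)).card : ℤ) :=
        Nat.cast_nonneg _
      have h1 : (0 : ℤ) < ((emb M M univ).card : ℤ) := by exact_mod_cast hM
      have h2 : (0 : ℤ) < (((emb M M D).filter (fun ρ => tr M M D ρ = Wᶜ)).card : ℤ) := by
        linarith
      exact_mod_cast h2
    obtain ⟨ρ, hρ⟩ := card_pos.mp e4
    rw [mem_filter] at hρ
    exact ⟨ρ, hρ.1, by rw [hρ.2, compl_compl]⟩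
  have hne : (Dᶜ).Nonempty := by
    rw [nonempty_iff_ne_empty]
    intro h
    exact hD (by rw [← compl_compl D, h, compl_empty])
  have hcard := card_even Dᶜ hne
  rw [card_compl] at hcard
  rw [← hcard]
  apply Nat.mul_le_mul_left
  calc (Dᶜ.powerset.filter (fun W => Even W.card)).card
      ≤ ((emb M M D).image (fun ρ => (tr M M D ρ)ᶜ)).card := by
        apply card_le_card
        intro W hW
        rw [mem_image]
        obtain ⟨ρ, h1, h2⟩ := key W hW
        exact ⟨ρ, h1, h2⟩
    _ ≤ (emb M M D).card := card_image_le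

/-- **The general theorem**: a matrix with a set `D` that determines everything, and with few maps
`D → V` preserving it, is determined by its cards. -/
theorem recon (hg : Good M M D) (hH : Hyp M N π) (hd : D.card + 2 < Fintype.card V)
    (hc : 2 * (emb M M D).card < 2 ^ (Fintype.card V - D.card)) :
    ∃ σ : Equiv.Perm V, ∀ x y, N (σ x) (σ y) = M x y := by
  by_contra hni
  have hD : D ≠ univ := by
    intro h
    rw [h, card_univ] at hd
    omega
  have := bound hg (good_transfer hg hH hd) hH hni hD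
  omega

end Pool.Agent.H370LR
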