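import Pool.Agent.H370LR.Count

set_option autoImplicit false
set_option linter.unusedSectionVars false

/-!
# Matrices of small rank with isomorphic cards
-/

namespace Pool.Agent.H370LR

open Finset Classical

variable {V F : Type} [Fintype V] [Field F]

/-- the rank of `P` -/
noncomputable def rk {ι κ : Type} [Fintype κ] (P : ι → κ → F) : ℕ := (Matrix.of P).rank

/-- the submatrix of `P` with the rows `i` and the columns `j` is regular -/
def Minor {r : ℕ} (P : V → V → F) (i j : Fin r → V) : Prop :=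
  LinearIndependent F (fun l : Fin r => fun k : Fin r => P (i l) (j k))

/-- no two elements have the same row and the same column -/
def Distinct (P : V → V → F) : Prop :=
  ∀ w w', (∀ u, P w u = P w' u ∧ P u w = P u w') → w = w'

variable {M N P : V → V → F} {D : Finset V} {r : ℕ} {i j : Fin r → V}

theorem rk_eq {ι κ : Type} [Finite ι] [Fintype κ] (P : ι → κ → F) :
    rk P = Module.finrank F (Submodule.span F (Set.range P)) := by
  unfold rk
  rw [Matrix.rank_eq_finrank_span_row]
  rfl

theorem minor_li (hm : Minor P i j) : LinearIndependent F (fun l => P (i l)) := by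
  apply LinearIndependent.of_comp (LinearMap.funLeft F F j)
  exact hm

theorem minor_rk (hm : Minor P i j) : r ≤ rk P := by
  rw [rk_eq]
  have h1 := finrank_span_eq_card (minor_li hm)
  rw [Fintype.card_fin] at h1
  rw [← h1]
  apply Submodule.finrank_mono
  apply Submodule.span_mono
  rintro _ ⟨l, rfl⟩
  exact ⟨i l, rfl⟩

theorem span_li (hli : LinearIndependent F (fun l => P (i l))) (hr : rk P ≤ r) (w : V) :
    ∃ x : Fin r → F, ∀ u, P w u = ∑ l, x l * P (i l) u := by
  have hle : Submodule.span F (Set.range (fun l => P (i l))) ≤ Submodule.span F (Set.range P) := by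
    apply Submodule.span_mono
    rintro _ ⟨l, rfl⟩
    exact ⟨i l, rfl⟩
  have heq := Submodule.eq_of_le_of_finrank_le hle (by
    rw [finrank_span_eq_card hli, Fintype.card_fin, ← rk_eq]
    exact hr)
  have h : P w ∈ Submodule.span F (Set.range P) := Submodule.subset_span ⟨w, rfl⟩
  rw [← heq, Submodule.mem_span_range_iff_exists_fun] at h
  obtain ⟨x, hx⟩ := h
  refine ⟨x, fun u => ?_⟩
  rw [← hx]
  simp [Finset.sum_apply]

theorem exists_li {ι κ : Type} [Finite ι] [Fintype κ] (A : ι → κ → F) {k : ℕ} (hk : k ≤ rk A) :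
    ∃ i : Fin k → ι, LinearIndependent F (fun l => A (i l)) := by
  obtain ⟨τ, a, ha, hs, hli⟩ := exists_linearIndependent' F A
  have : Finite τ := Finite.of_injective a ha
  have : Fintype τ := Fintype.ofFinite τ
  have h1 : Fintype.card τ = rk A := by
    rw [rk_eq, ← hs, finrank_span_eq_card hli]
  have h2 : Nonempty (Fin k ↪ τ) := by
    apply Function.Embedding.nonempty_of_card_le
    rw [Fintype.card_fin, h1]
    exact hk
  obtain ⟨e⟩ := h2
  exact ⟨fun l => a (e l), hli.comp e e.injective⟩

theorem exists_minor (P : V → V → F) {k : ℕ} (hk : k ≤ rk P) :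
    ∃ i j : Fin k → V, Minor P i j := by
  obtain ⟨i, hi⟩ := exists_li P hk
  have h1 : k ≤ rk (fun u : V => fun l : Fin k => P (i l) u) := by
    have h2 : rk (fun u : V => fun l : Fin k => P (i l) u) =
        rk (fun l : Fin k => fun u : V => P (i l) u) := by
      unfold rk
      rw [← Matrix.rank_transpose]
      rfl
    rw [h2, rk_eq, finrank_span_eq_card hi, Fintype.card_fin]
  obtain ⟨j, hj⟩ := exists_li _ h1
  refine ⟨i, j, ?_⟩
  unfold Minor
  have h3 : LinearIndependent F (Matrix.of (fun m : Fin k => fun l : Fin k => P (i l) (j m))).row := hj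
  rw [Matrix.linearIndependent_rows_iff_isUnit, ← Matrix.isUnit_transpose,
    ← Matrix.linearIndependent_rows_iff_isUnit] at h3
  exact h3

theorem minor_symm (hs : ∀ x y, P x y = P y x) (hli : LinearIndependent F (fun l => P (i l)))
    (hr : rk P ≤ r) : Minor P i i := by
  have hli' := Fintype.linearIndependent_iff.mp hli
  apply Fintype.linearIndependent_iff.mpr
  intro x hx
  apply hli' x
  funext u
  obtain ⟨z, hz⟩ := span_li hli hr u
  have hx' : ∀ m, ∑ l, x l * P (i l) (i m) = 0 := by
    intro m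
    have h0 := congrFun hx m
    simp only [Finset.sum_apply, Pi.smul_apply, smul_eq_mul, Pi.zero_apply] at h0
    exact h0
  simp only [Finset.sum_apply, Pi.smul_apply, smul_eq_mul, Pi.zero_apply]
  calc ∑ l, x l * P (i l) u = ∑ l, ∑ m, x l * (z m * P (i m) (i l)) := by
        apply sum_congr rfl
        intro l _
        rw [hs (i l) u, hz, mul_sum]
    _ = ∑ m, z m * ∑ l, x l * P (i l) (i m) := by
        rw [sum_comm]
        apply sum_congr rfl
        intro m _
        rw [mul_sum]
        apply sum_congr rfl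
        intro l _
        rw [hs (i m) (i l)]
        ring
    _ = 0 := by
        apply sum_eq_zero
        intro m _
        rw [hx', mul_zero]

section good

variable (hm : Minor M i j) (hrM : rk M ≤ r) (hrP : rk P ≤ r) (hi : ∀ l, i l ∈ D)
  (hj : ∀ k, j k ∈ D)

include hm hrM hrP in
theorem coef {ρ : D → V} (hρ : ρ ∈ emb M P D) (v : V) :
    ∃ x : Fin r → F, (∀ u, M v u = ∑ l, x l * M (i l) u) ∧
      ∀ w, (∀ k, P w (ρ ⟨j k, hj k⟩) = M v (j k)) → ∀ u, P w u = ∑ l, x l * P (ρ ⟨i l, hi l⟩) u := by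
  rw [mem_emb] at hρ
  have hmP : Minor P (fun l => ρ ⟨i l, hi l⟩) (fun k => ρ ⟨j k, hj k⟩) := by
    unfold Minor at hm ⊢
    have : (fun l : Fin r => fun k : Fin r => P (ρ ⟨i l, hi l⟩) (ρ ⟨j k, hj k⟩)) =
        (fun l : Fin r => fun k : Fin r => M (i l) (j k)) := by
      funext l k
      exact hρ _ _
    rw [this]
    exact hm
  obtain ⟨x, hx⟩ := span_li (minor_li hm) hrM v
  refine ⟨x, hx, fun w hw => ?_⟩
  obtain ⟨y, hy⟩ := span_li (minor_li hmP) hrP w
  have hxy : x = y := by
    unfold Minor at hm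
    rw [Fintype.linearIndependent_iff] at hm
    have h1 := hm (fun l => x l - y l) (by
      funext k
      simp only [Finset.sum_apply, Pi.smul_apply, smul_eq_mul, Pi.zero_apply, sub_mul]
      rw [sum_sub_distrib, ← hx (j k), ← hw k, hy]
      rw [sub_eq_zero]
      apply sum_congr rfl
      intro l _
      rw [hρ ⟨i l, hi l⟩ ⟨j k, hj k⟩])
    funext l
    exact sub_eq_zero.mp (h1 l)
  rw [hxy]
  exact hy

include hm hrM hrP hi hj in
theorem good_det {ρ : D → V} (hρ : ρ ∈ emb M P D) {v v' w w' : V} (h : Mat M P D ρ v w)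
    (h' : Mat M P D ρ v' w') : P w w' = M v v' := by
  obtain ⟨x, h1, h2⟩ := coef hm hrM hrP hi hj hρ v
  rw [h2 w (fun k => (h ⟨j k, hj k⟩).1) w', h1 v']
  apply sum_congr rfl
  intro l _
  rw [(h' ⟨i l, hi l⟩).2]

include hm hrM hrP hi hj in
theorem good_uniq (hdP : Distinct P) {ρ : D → V} (hρ : ρ ∈ emb M P D) {v w w' : V}
    (h : Mat M P D ρ v w) (h' : Mat M P D ρ v w') : w = w' := by
  apply hdP
  intro u
  obtain ⟨x, h1, h2⟩ := coef hm hrM hrP hi hj hρ v
  constructor
  · rw [h2 w (fun k => (h ⟨j k, hj k⟩).1) u, h2 w' (fun k => (h' ⟨j k, hj k⟩).1) u]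
  · -- the row of `u` is a combination of the rows of the image
    have hmP : Minor P (fun l => ρ ⟨i l, hi l⟩) (fun k => ρ ⟨j k, hj k⟩) := by
      unfold Minor at hm ⊢
      rw [mem_emb] at hρ
      have : (fun l : Fin r => fun k : Fin r => P (ρ ⟨i l, hi l⟩) (ρ ⟨j k, hj k⟩)) =
          (fun l : Fin r => fun k : Fin r => M (i l) (j k)) := by
        funext l k
        exact hρ _ _
      rw [this]
      exact hm
    obtain ⟨y, hy⟩ := span_li (minor_li hmP) hrP u
    rw [hy w, hy w']
    apply sum_congr rfl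
    intro l _
    rw [(h ⟨i l, hi l⟩).2, (h' ⟨i l, hi l⟩).2]

include hm hrM hrP hi hj in
theorem good (hdM : Distinct M) (hdP : Distinct P) : Good M P D where
  det := fun _ hρ _ _ _ _ h h' => good_det hm hrM hrP hi hj hρ h h'
  uniq := fun _ hρ _ _ _ h h' => good_uniq hm hrM hrP hi hj hdP hρ h h'
  inj := by
    intro v v' h
    have hρ : (fun d : D => (d : V)) ∈ emb M M D := mem_emb.mpr (fun _ _ => rfl)
    apply good_uniq hm hrM hrM hi hj hdM hρ (v := v)
    · exact fun d => ⟨rfl, rfl⟩
    · exact fun d => ⟨(h d d.2).1.symm, (h d d.2).2.symm⟩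

end good

section hyp

variable {π : V → Equiv.Perm V}

/-- Matrices of small rank. -/
theorem recon_rank (hH : Hyp M N π) (hm : Minor M i j) (hrM : rk M ≤ r) (hdM : Distinct M)
    (hd : D.card + 2 < Fintype.card V) (hi : ∀ l, i l ∈ D) (hj : ∀ k, j k ∈ D)
    (hc : 2 * (emb M M D).card < 2 ^ (Fintype.card V - D.card)) :
    ∃ σ : Equiv.Perm V, ∀ x y, N (σ x) (σ y) = M x y :=
  recon (good hm hrM hrM hi hj hdM hdM) hH hd hc

/-- **Symmetric matrices**. -/
theorem recon_symm (hH : Hyp M N π) (hs : ∀ x y, M x y = M y x)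
    (hdM : Distinct M) (hn : rk M + 2 < Fintype.card V)
    (hc : 2 * (Fintype.card V).descFactorial (rk M) < 2 ^ (Fintype.card V - rk M)) :
    ∃ σ : Equiv.Perm V, ∀ x y, N (σ x) (σ y) = M x y := by
  obtain ⟨i, hi⟩ := exists_li M (le_refl (rk M))
  have hm := minor_symm hs hi (le_refl _)
  have hinj : Function.Injective i := by
    intro a b hab
    apply hi.injective
    show M (i a) = M (i b)
    rw [hab]
  have hD : ∀ l, i l ∈ univ.image i := fun l => mem_image_of_mem _ (mem_univ _)
  have hcard : (univ.image i).card = rk M := by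
    rw [card_image_of_injective _ hinj, card_univ, Fintype.card_fin]
  apply recon_rank hH hm (le_refl _) hdM (by rw [hcard]; exact hn) hD hD
  rw [hcard]
  refine lt_of_le_of_lt ?_ hc
  apply Nat.mul_le_mul_left
  have hg := good hm (le_refl _) (le_refl _) hD hD hdM hdM
  have h1 : (emb M M (univ.image i)).card ≤
      (univ : Finset ((↥(univ.image i)) ↪ V)).card := by
    apply card_le_card_of_injOn (fun σ => if h : Function.Injective σ then
      ⟨σ, h⟩ else ⟨fun s => (s : V), Subtype.val_injective⟩)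
    · intro _ _
      exact mem_coe.mpr (mem_univ _)
    · intro σ hσ σ' hσ' he
      have h1 := emb_injective hg (Subset.refl _) hσ
      have h2 := emb_injective hg (Subset.refl _) hσ'
      simp only [h1, h2, dif_pos] at he
      exact congrArg (fun f : (↥(univ.image i)) ↪ V => (fun s => f s)) he
  rw [card_univ, Fintype.card_embedding_eq, Fintype.card_coe, hcard] at h1
  exact h1

end hyp

theorem size {n r : ℕ} (hr : 1 ≤ r) (hrn : r ≤ n) (h : n.descFactorial r < 2 ^ (n - r - 1)) :
    2 * r + 2 < n := by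
  by_contra hle
  push Not at hle
  have h1 := Nat.pow_sub_le_descFactorial n r
  obtain ⟨k, rfl⟩ : ∃ k, n = r + k := ⟨n - r, by omega⟩
  have e1 : r + k + 1 - r = k + 1 := by omega
  have e2 : r + k - r - 1 = k - 1 := by omega
  rw [e1] at h1
  rw [e2] at h
  have h2 : (k + 1) ^ r < 2 ^ (k - 1) := lt_of_le_of_lt h1 h
  rcases Nat.lt_or_ge (r + 1) k with hk | hk
  · have hk' : k = r + 2 := by omega
    subst hk'
    have e3 : r + 2 - 1 = r + 1 := by omega
    rw [e3] at h2
    have h3 : 4 ^ r ≤ (r + 2 + 1) ^ r := Nat.pow_le_pow_left (by omega) r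
    have h4 : (4 : ℕ) ^ r = 2 ^ (2 * r) := by rw [pow_mul]; norm_num
    have h5 : (2 : ℕ) ^ (r + 1) ≤ 2 ^ (2 * r) := Nat.pow_le_pow_right (by norm_num) (by omega)
    omega
  · rcases Nat.eq_zero_or_pos k with h0 | h0
    · subst h0
      simp at h2
    · have h3 : 2 ^ r ≤ (k + 1) ^ r := Nat.pow_le_pow_left (by omega) r
      have h5 : (2 : ℕ) ^ (k - 1) ≤ 2 ^ r := Nat.pow_le_pow_right (by norm_num) (by omega)
      omega

end Pool.Agent.H370LR
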