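import Pool.Agent.H370LR.LinAlg
import Pool.Agent.H234RC.T1

set_option autoImplicit false
set_option linter.unusedSectionVars false

/-!
# Graphs whose matrix has small rank
-/

namespace Pool.Agent.H370LR

open Finset Classical
open Pool.Agent.H234RC (Hypo NonIso Reconstructible exists_hypo)

/-- entry `c` on the diagonal, `a` at adjacent and `b` at distinct nonadjacent vertices -/
noncomputable def gm {V F : Type} (G : SimpleGraph V) (a b c : F) : V → V → F :=
  fun x y => if x = y then c else if G.Adj x y then a else b

variable {V F : Type} [Fintype V] [Field F]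

theorem gm_symm (G : SimpleGraph V) (a b c : F) (x y : V) : gm G a b c x y = gm G a b c y x := by
  unfold gm
  by_cases h : x = y
  · subst h
    rfl
  · have h2 : ¬ y = x := fun h' => h h'.symm
    rw [if_neg h, if_neg h2]
    by_cases h' : G.Adj x y
    · have h3 : G.Adj y x := h'.symm
      rw [if_pos h', if_pos h3]
    · have h3 : ¬ G.Adj y x := fun h'' => h' h''.symm
      rw [if_neg h', if_neg h3]

theorem gm_compl (G : SimpleGraph V) (a b c : F) : gm Gᶜ b a c = gm G a b c := by
  funext x y
  unfold gm
  by_cases h : x = y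
  · rw [if_pos h, if_pos h]
  · rw [if_neg h, if_neg h]
    by_cases h' : G.Adj x y
    · rw [if_pos h', if_neg]
      rw [SimpleGraph.compl_adj]
      exact fun h'' => h''.2 h'
    · rw [if_neg h', if_pos]
      rw [SimpleGraph.compl_adj]
      exact ⟨h, h'⟩

theorem gm_distinct (G : SimpleGraph V) {a b c : F} (ha : c ≠ a) (hb : c ≠ b) (x y : V)
    (h : gm G a b c x = gm G a b c y) : x = y := by
  by_contra hxy
  have h1 := congrFun h y
  unfold gm at h1
  rw [if_neg hxy, if_pos rfl] at h1
  split_ifs at h1
  · exact ha h1.symm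
  · exact hb h1.symm

theorem rk_le_card (P : V → V → F) : rk P ≤ Fintype.card V := by
  unfold rk
  exact Matrix.rank_le_card_width _

/-- transfer between the graphs and the matrices -/
theorem of_matrix (G : SimpleGraph V) (a b c : F) (hab : a ≠ b)
    (h : ∀ (N : V → V → F) (π : V → Equiv.Perm V), Hyp (gm G a b c) N π →
      ∃ σ : Equiv.Perm V, ∀ x y, N (σ x) (σ y) = gm G a b c x y) : Reconstructible G := by
  by_contra hcon
  obtain ⟨H, π, hH, hN⟩ := exists_hypo G hcon
  apply hN
  have hHyp : Hyp (gm G a b c) (gm H a b c) π := by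
    refine ⟨hH.fix, fun v x y hx hy => ?_⟩
    unfold gm
    by_cases h : x = y
    · rw [if_pos h, if_pos (by rw [h])]
    · rw [if_neg h, if_neg (fun h' => h ((π v).injective h'))]
      simp only [hH.adj v x y hx hy]
  obtain ⟨σ, hσ⟩ := h _ π hHyp
  refine ⟨σ, fun x y => ?_⟩
  by_cases hxy : x = y
  · subst hxy
    exact iff_of_false (H.loopless.irrefl _) (G.loopless.irrefl _)
  have h1 := hσ x y
  unfold gm at h1
  rw [if_neg hxy, if_neg (fun h' => hxy (σ.injective h'))] at h1
  constructor
  · intro h
    rw [if_pos h] at h1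
    by_contra h2
    rw [if_neg h2] at h1
    exact hab h1
  · intro h
    rw [if_pos h] at h1
    by_contra h2
    rw [if_neg h2] at h1
    exact hab h1.symm

theorem main_one (G : SimpleGraph V) (a b c : F) (hab : a ≠ b)
    (hd : ∀ x y, gm G a b c x = gm G a b c y → x = y)
    (hr : (Fintype.card V).descFactorial (rk (gm G a b c)) <
      2 ^ (Fintype.card V - rk (gm G a b c) - 1)) : Reconstructible G := by
  apply of_matrix G a b c hab
  intro N π hHyp
  have hdist : Distinct (gm G a b c) := by
    intro w w' h
    apply hd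
    funext u
    exact (h u).1
  have hle := rk_le_card (gm G a b c)
  rcases Nat.eq_zero_or_pos (rk (gm G a b c)) with h0 | h0
  · -- all rows are zero
    have h1 : ∀ x y : V, x = y := by
      intro x y
      apply hd
      have h2 : ∀ x, gm G a b c x = 0 := by
        intro x
        have h3 : gm G a b c x ∈ Submodule.span F (Set.range (gm G a b c)) :=
          Submodule.subset_span ⟨x, rfl⟩
        rw [rk_eq] at h0
        rw [Submodule.finrank_eq_zero.mp h0] at h3
        exact (Submodule.mem_bot F).mp h3
      rw [h2 x, h2 y]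
    exfalso
    have h2 : Fintype.card V ≤ 1 := Fintype.card_le_one_iff.mpr h1
    rw [h0, Nat.descFactorial_zero] at hr
    have h3 : Fintype.card V - 0 - 1 = 0 := by omega
    rw [h3, pow_zero] at hr
    omega
  · have hn := size h0 hle hr
    apply recon_symm hHyp (gm_symm G a b c) hdist (by omega)
    have e : Fintype.card V - rk (gm G a b c) = (Fintype.card V - rk (gm G a b c) - 1) + 1 := by
      omega
    rw [e, pow_succ]
    omega

/-- the form with few copies of a regular principal submatrix -/
theorem main_one' (G : SimpleGraph V) (a b c : F) (hab : a ≠ b)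
    (hd : ∀ x y, gm G a b c x = gm G a b c y → x = y)
    (hn : rk (gm G a b c) + 2 < Fintype.card V) (D : Finset V)
    (hD : D.card = rk (gm G a b c))
    (hu : IsUnit ((Matrix.of (gm G a b c)).submatrix (fun x : D => (x : V)) (fun x : D => (x : V))))
    (hc : (emb (gm G a b c) (gm G a b c) D).card <
      2 ^ (Fintype.card V - rk (gm G a b c) - 1)) : Reconstructible G := by
  apply of_matrix G a b c hab
  intro N π hHyp
  have hdist : Distinct (gm G a b c) := by
    intro w w' h
    apply hd
    funext u
    exact (h u).1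
  have hcard : Fintype.card D = rk (gm G a b c) := by rw [Fintype.card_coe, hD]
  let e : Fin (rk (gm G a b c)) ≃ D := (Fintype.equivFinOfCardEq hcard).symm
  have hm : Minor (gm G a b c) (fun l => (e l : V)) (fun l => (e l : V)) := by
    have h1 : IsUnit ((Matrix.of (gm G a b c)).submatrix (fun l => (e l : V))
        (fun l => (e l : V))) := by
      have h2 : (Matrix.of (gm G a b c)).submatrix (fun l => (e l : V)) (fun l => (e l : V)) =
          ((Matrix.of (gm G a b c)).submatrix (fun x : D => (x : V)) (fun x : D => (x : V))).submatrix e e :=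
        rfl
      rw [h2, Matrix.isUnit_submatrix_equiv]
      exact hu
    rw [← Matrix.linearIndependent_rows_iff_isUnit] at h1
    exact h1
  apply recon_rank hHyp hm (le_refl _) hdist (D := D) (by rw [hD]; exact hn)
    (fun l => (e l).2) (fun l => (e l).2)
  have e1 : Fintype.card V - D.card = (Fintype.card V - rk (gm G a b c) - 1) + 1 := by
    omega
  rw [e1, pow_succ]
  omega

/-- maps which carry the matrix to itself are embeddings of the induced subgraph -/
theorem emb_le (G : SimpleGraph V) (a b c : F) (hab : a ≠ b) (D : Finset V)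
    (hu : IsUnit ((Matrix.of (gm G a b c)).submatrix (fun x : D => (x : V)) (fun x : D => (x : V)))) :
    (emb (gm G a b c) (gm G a b c) D).card ≤ Nat.card ((G.induce (D : Set V)) ↪g G) := by
  have hli : LinearIndependent F
      ((Matrix.of (gm G a b c)).submatrix (fun x : D => (x : V)) (fun x : D => (x : V))).row :=
    Matrix.linearIndependent_rows_iff_isUnit.mpr hu
  have hinj : ∀ σ ∈ emb (gm G a b c) (gm G a b c) D, Function.Injective σ := by
    intro σ hσ x y hxy
    rw [mem_emb] at hσ
    apply hli.injective
    funext z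
    show gm G a b c x z = gm G a b c y z
    rw [← hσ x z, ← hσ y z, hxy]
  have hadj : ∀ σ ∈ emb (gm G a b c) (gm G a b c) D, ∀ x y : D,
      G.Adj (σ x) (σ y) ↔ G.Adj (x : V) (y : V) := by
    intro σ hσ x y
    by_cases hxy : x = y
    · subst hxy
      exact iff_of_false (G.loopless.irrefl _) (G.loopless.irrefl _)
    have h1 := hinj σ hσ
    rw [mem_emb] at hσ
    have h2 := hσ x y
    unfold gm at h2
    rw [if_neg (fun h => hxy (h1 h)), if_neg (fun h => hxy (Subtype.ext h))] at h2
    constructor
    · intro h
      rw [if_pos h] at h2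
      by_contra h3
      rw [if_neg h3] at h2
      exact hab h2
    · intro h
      rw [if_pos h] at h2
      by_contra h3
      rw [if_neg h3] at h2
      exact hab h2.symm
  have hfin : Finite ((G.induce (D : Set V)) ↪g G) := inferInstance
  have : Fintype ((G.induce (D : Set V)) ↪g G) := Fintype.ofFinite _
  rw [Nat.card_eq_fintype_card, ← card_univ]
  let f : (σ : D → V) → σ ∈ emb (gm G a b c) (gm G a b c) D → ((G.induce (D : Set V)) ↪g G) :=
    fun σ hσ => ⟨⟨fun x => σ ⟨x, x.2⟩, fun x y h => by
      have := hinj σ hσ h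
      exact Subtype.ext (congrArg (fun z : D => (z : V)) this)⟩, fun {x y} => hadj σ hσ ⟨x, x.2⟩ ⟨y, y.2⟩⟩
  rw [← card_attach]
  apply card_le_card_of_injOn (fun σ => f σ.1 σ.2)
  · intro _ _
    exact mem_coe.mpr (mem_univ _)
  · intro σ _ τ _ h
    apply Subtype.ext
    funext x
    have h1 : (f σ.1 σ.2) ⟨x, x.2⟩ = (f τ.1 τ.2) ⟨x, x.2⟩ := by
      have h2 : f σ.1 σ.2 = f τ.1 τ.2 := h
      rw [h2]
    exact h1

theorem main (G : SimpleGraph V) (a b c : F) (hab : a ≠ b)
    (hd : ∀ x y, gm G a b c x = gm G a b c y → x = y)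
    (hr : (Fintype.card V).descFactorial (rk (gm G a b c)) <
      2 ^ (Fintype.card V - rk (gm G a b c) - 1)) : Reconstructible G ∧ Reconstructible Gᶜ := by
  refine ⟨main_one G a b c hab hd hr, ?_⟩
  apply main_one Gᶜ b a c hab.symm
  · rw [gm_compl]; exact hd
  · rw [gm_compl]; exact hr

theorem main' (G : SimpleGraph V) (a b c : F) (hab : a ≠ b)
    (hd : ∀ x y, gm G a b c x = gm G a b c y → x = y)
    (hn : rk (gm G a b c) + 2 < Fintype.card V) (D : Finset V)
    (hD : D.card = rk (gm G a b c))
    (hu : IsUnit ((Matrix.of (gm G a b c)).submatrix (fun x : D => (x : V)) (fun x : D => (x : V))))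
    (hc : Nat.card ((G.induce (D : Set V)) ↪g G) <
      2 ^ (Fintype.card V - rk (gm G a b c) - 1)) : Reconstructible G ∧ Reconstructible Gᶜ := by
  have h1 := lt_of_le_of_lt (emb_le G a b c hab D hu) hc
  refine ⟨main_one' G a b c hab hd hn D hD hu h1, ?_⟩
  have e := gm_compl G a b c
  apply main_one' Gᶜ b a c hab.symm
  · rw [e]; exact hd
  · rw [e]; exact hn
  · rw [e]; exact hD
  · rw [e]; exact hu
  · rw [e]; exact h1

end Pool.Agent.H370LR
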